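import Pool.Agent.Lib.MP_abd978_an.PL.Defs
import Pool.Agent.Lib.MP_abd978_an.Assembly

/-!
# Project PLANAR: module FIN (the final theorem)
-/

set_option autoImplicit false

open MeasureTheory Metric Set Filter Topology ContDiff
open scoped Gradient RealInnerProductSpace ENNReal

namespace Pool.Agent.Lib.MP_abd978_an.PL.H94

/-- module FIN -/
theorem fin (hucb : UcbStatement) (hncon : NconStatement) (hfin : FinalStatement)
    (hnorm : NormStatement) : PlanarStatement := by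
  intro p Ω Ω₀ w' A' w A f hp hΩ hΩ₀ hpre hsub hcl hA' hA hσ hf
  obtain ⟨-, h2, h3⟩ := hfin 2 p Ω f le_rfl hp hΩ ⟨w', A', w, A, hA', hA, hf⟩
  by_cases hR : ∀ y, interior (Ω ∩ f ⁻¹' {y}) = ∅
  · exact Or.inr ⟨hR, h3 hR⟩
  push Not at hR
  obtain ⟨y, x₂, hx₂⟩ := hR
  obtain ⟨a', α', β', hop', hh'⟩ := hnorm 2 p w' A' hp hA'
  obtain ⟨a, α, β, hop, hh⟩ := hnorm 2 p w A hp hA
  have hcf := hf.1
  refine Or.inl ⟨y, ?_⟩
  set W : Set (E 2) := {x | ∀ᶠ z in 𝓝 x, f z = y} with hW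
  have hWo : IsOpen W := isOpen_setOfPred_eventually_nhds
  -- `W` meets `Ω₀`
  have hne : (Ω₀ ∩ W).Nonempty := by
    have hx₂Ω : x₂ ∈ Ω := (interior_subset hx₂).1
    obtain ⟨x₃, hx₃, hx₃'⟩ := mem_closure_iff_nhds.1 (hcl hx₂Ω) _
      (isOpen_interior.mem_nhds hx₂)
    refine ⟨x₃, hx₃', ?_⟩
    show ∀ᶠ z in 𝓝 x₃, f z = y
    filter_upwards [isOpen_interior.mem_nhds hx₃] with z hz
    exact (interior_subset hz).2
  have hsubW : Ω₀ ⊆ W := by
    refine hpre.subset_of_closure_inter_subset hWo hne ?_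
    rintro x₁ ⟨hx1, hx1Ω⟩
    have hcx : ContinuousAt f x₁ := hcf.continuousAt (hΩ.mem_nhds (hsub hx1Ω))
    obtain ⟨R, hR, hRs⟩ := Metric.mem_nhds_iff.1
      (inter_mem (hΩ₀.mem_nhds hx1Ω) (hcx (ball_mem_nhds (f x₁) one_pos)))
    have hG0 : ball x₁ R ⊆ Ω₀ := fun x hx => (hRs hx).1
    have hGΩ : ball x₁ R ⊆ Ω := hG0.trans hsub
    obtain ⟨z, hzb, hzW⟩ := mem_closure_iff_nhds.1 hx1 (ball x₁ R) (ball_mem_nhds _ hR)
    have hpreB : IsPreconnected (ball x₁ R) := (convex_ball x₁ R).isPreconnected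
    rcases h2 (ball x₁ R) isOpen_ball hpreB hGΩ with ho | hs
    · exfalso
      obtain ⟨h, hharm, b₁, ⟨x₁', hx₁', hb₁⟩, b₂, ⟨x₂', hx₂', hb₂⟩, hne⟩ :=
        hncon 2 p (wm w) a α β (f '' ball x₁ R)
        (by norm_num) hop ho ((nonempty_ball.2 hR).image f)
        (isBounded_ball.subset (by
          rintro _ ⟨x, hx, rfl⟩
          exact (hRs hx).2 : f '' ball x₁ R ⊆ ball (f x₁) 1))
      have hcomp : Harm (wm w') p a' (ball x₁ R) (h ∘ f) := by
        have h4 := hf.2 (f '' ball x₁ R) h ho ((hh _ _).2 hharm)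
        exact ((hh' _ _).1 h4).mono fun x hx => ⟨hGΩ hx, x, hx, rfl⟩
      have hloc : ∀ᶠ x in 𝓝 z, (h ∘ f) x = h y := by
        have h5 : ∀ᶠ x in 𝓝 z, f x = y := hzW
        filter_upwards [h5] with x hx
        rw [Function.comp_apply, hx]
      have key := hucb p w' a' α' β' (ball x₁ R) (h ∘ f) z (h y) hA'.1.locInt hA'.1.pos hop'
        isOpen_ball hpreB (hσ.mono_set hG0) hcomp hzb hloc
      apply hne
      rw [← hb₁, ← hb₂]
      exact (key x₁' hx₁').trans (key x₂' hx₂').symm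
    · show ∀ᶠ x in 𝓝 x₁, f x = y
      filter_upwards [ball_mem_nhds x₁ hR] with x hx
      have h5 : ∀ᶠ x in 𝓝 z, f x = y := hzW
      rw [← h5.self_of_nhds]
      exact hs ⟨x, hx, rfl⟩ ⟨z, hzb, rfl⟩
  intro x hx
  have hcx : ContinuousAt f x := hcf.continuousAt (hΩ.mem_nhds hx)
  have h6 : f x ∈ closure (f '' Ω₀) :=
    mem_closure_image hcx (hcl hx)
  have h7 : f '' Ω₀ ⊆ {y} := by
    rintro _ ⟨t, ht, rfl⟩
    have h5 : ∀ᶠ x in 𝓝 t, f x = y := hsubW ht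
    exact h5.self_of_nhds
  have h8 := closure_mono h7 h6
  rwa [closure_singleton] at h8

end Pool.Agent.Lib.MP_abd978_an.PL.H94
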