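import Pool.Agent.Lib.MP_abd978_an.PL.Tool

/-!
# Project PLANAR, module LUC: local unique continuation for pairs
-/

set_option autoImplicit false

open MeasureTheory Metric Set Filter Topology ContDiff
open scoped Gradient RealInnerProductSpace ENNReal

namespace Pool.Agent.Lib.MP_abd978_an.PL.H94

theorem sc_pos {p : ℝ} {j : ℕ} (hj : 1 ≤ j) : 0 < sc p j := by
  have : (0 : ℝ) < j := by exact_mod_cast hj
  unfold sc; positivity

theorem tc_pos {p : ℝ} {j : ℕ} (hj : 1 ≤ j) : 0 < tc p j := by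
  have : (0 : ℝ) < j := by exact_mod_cast hj
  unfold tc; positivity

/-- the scales shrink by a factor greater than `2` -/
theorem two_sc_lt {p : ℝ} (hp : 1 < p) {j : ℕ} (hj : 1 ≤ j) : 2 * sc p (j + 1) < sc p j := by
  have hj0 : (0 : ℝ) < j := by exact_mod_cast hj
  have hq : 1 < p / (p - 1) := (one_lt_div (by linarith)).2 (by linarith)
  have he : (2 : ℝ) < Real.exp (p / (p - 1)) := by
    have h1 : Real.exp 1 < Real.exp (p / (p - 1)) := Real.exp_lt_exp.2 hq
    have h2 : (2 : ℝ) < Real.exp 1 := by have := Real.exp_one_gt_d9; linarith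
    linarith
  unfold sc
  have h3 : Real.exp (-(p / (p - 1)) * (j : ℝ)) =
      Real.exp (p / (p - 1)) * Real.exp (-(p / (p - 1)) * ((j + 1 : ℕ) : ℝ)) := by
    rw [← Real.exp_add]; congr 1; push_cast; ring
  rw [h3]
  set X := Real.exp (-(p / (p - 1)) * ((j + 1 : ℕ) : ℝ)) with hX
  have hX0 : 0 < X := Real.exp_pos _
  have h4 : X / ((j + 1 : ℕ) : ℝ) ≤ X / j := by
    apply div_le_div_of_nonneg_left hX0.le hj0
    push_cast; linarith
  have h5 : 0 < X / j := by positivity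
  calc 2 * (X / ((j + 1 : ℕ) : ℝ)) ≤ 2 * (X / j) := by linarith
    _ < Real.exp (p / (p - 1)) * (X / j) := by nlinarith
    _ = _ := by ring

theorem two_tc_lt {p : ℝ} (hp : 1 < p) {j : ℕ} (hj : 1 ≤ j) : 2 * tc p (j + 1) < tc p j := by
  have hj0 : (0 : ℝ) < j := by exact_mod_cast hj
  have he : (2 : ℝ) < Real.exp p := by
    have h1 : Real.exp 1 < Real.exp p := Real.exp_lt_exp.2 hp
    have h2 : (2 : ℝ) < Real.exp 1 := by have := Real.exp_one_gt_d9; linarith
    linarith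
  unfold tc
  have h3 : Real.exp (-p * (j : ℝ)) =
      Real.exp p * Real.exp (-p * ((j + 1 : ℕ) : ℝ)) := by
    rw [← Real.exp_add]; congr 1; push_cast; ring
  rw [h3]
  set X := Real.exp (-p * ((j + 1 : ℕ) : ℝ)) with hX
  have hX0 : 0 < X := Real.exp_pos _
  have h4 : X / ((j + 1 : ℕ) : ℝ) ≤ X / j := by
    apply div_le_div_of_nonneg_left hX0.le hj0
    push_cast; linarith
  have h5 : 0 < X / j := by positivity
  calc 2 * (X / ((j + 1 : ℕ) : ℝ)) ≤ 2 * (X / j) := by linarith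
    _ < Real.exp p * (X / j) := by nlinarith
    _ = _ := by ring

/-- a sequence shrinking by a factor `> 2`: the annuli `[s j, 2 s j]` are disjoint -/
theorem annuli_disjoint {s : ℕ → ℝ} (hs : ∀ j, 1 ≤ j → 0 < s j)
    (hs2 : ∀ j, 1 ≤ j → 2 * s (j + 1) < s j) {i j : ℕ} (hi : 1 ≤ i) (hij : i < j) {x : ℝ}
    (h1 : s i ≤ x) (h2 : x ≤ 2 * s j) : False := by
  have key : ∀ k : ℕ, 2 * s (i + 1 + k) < s i := by
    intro k
    induction k with
    | zero => exact hs2 i hi
    | succ k ih =>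
      have h3 := hs2 (i + 1 + k) (by omega)
      have h4 := hs (i + 1 + (k + 1)) (by omega)
      have h5 : s (i + 1 + (k + 1)) = s (i + 1 + k + 1) := rfl
      have h6 := hs (i + 1 + k) (by omega)
      rw [h5] at *
      linarith
  obtain ⟨k, rfl⟩ : ∃ k, j = i + 1 + k := ⟨j - (i + 1), by omega⟩
  linarith [key k]

theorem tendsto_sc {p : ℝ} (hp : 1 < p) : Tendsto (fun j : ℕ => sc p j) atTop (𝓝 0) := by
  have hq : 0 < p / (p - 1) := by
    have : 0 < p - 1 := by linarith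
    positivity
  refine squeeze_zero' (eventually_atTop.2 ⟨1, fun j hj => (sc_pos hj).le⟩)
    (eventually_atTop.2 ⟨1, fun j hj => ?_⟩) tendsto_one_div_atTop_nhds_zero_nat
  unfold sc
  have hj0 : (0 : ℝ) < j := by exact_mod_cast hj
  apply div_le_div_of_nonneg_right _ hj0.le
  rw [Real.exp_le_one_iff]
  have : 0 ≤ p / (p - 1) * j := by positivity
  linarith

/-- sums of integrals over disjoint sets -/
theorem sum_le {f : E 2 → ℝ} {B : Set (E 2)} (hf : IntegrableOn f B)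
    (h0 : ∀ x, 0 ≤ f x) (S : ℕ → Set (E 2)) (hS : ∀ j, NullMeasurableSet (S j) volume)
    (hsub : ∀ j, S j ⊆ B) (F : Finset ℕ)
    (hd : ∀ i ∈ F, ∀ j ∈ F, i ≠ j → Disjoint (S i) (S j)) :
    ∑ j ∈ F, ∫ x in S j, f x ≤ ∫ x in B, f x := by
  have h1 : ∑ j ∈ F, ∫ x in S j, f x = ∫ x in ⋃ j ∈ F, S j, f x := by
    induction F using Finset.induction_on with
    | empty => simp
    | insert i F hi ih =>
      rw [Finset.sum_insert hi, ih fun i hi j hj => hd i (Finset.mem_insert_of_mem hi) j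
        (Finset.mem_insert_of_mem hj)]
      rw [Finset.set_biUnion_insert]
      rw [setIntegral_union₀]
      · refine Disjoint.aedisjoint ?_
        rw [Set.disjoint_iUnion₂_right]
        intro j hj
        exact hd i (Finset.mem_insert_self _ _) j (Finset.mem_insert_of_mem hj)
          (by rintro rfl; exact hi hj)
      · exact Finset.nullMeasurableSet_biUnion _ fun j _ => hS j
      · exact hf.mono_set (hsub i)
      · exact hf.mono_set (iUnion₂_subset fun j _ => hsub j)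
  rw [h1]
  exact setIntegral_mono_set hf (Eventually.of_forall h0)
    (Eventually.of_forall fun x hx => (iUnion₂_subset fun j _ => hsub j) hx)

/-- measurability of the level sets of a pair -/
theorem nullM {p α β : ℝ} {w : E 2 → ℝ} {B : Set (E 2)} {u v : E 2 → ℝ} {V a : E 2 → E 2}
    (h : Pair p α β w B u v V a) {T : Set (ℝ × ℝ)} (hT : MeasurableSet T) :
    NullMeasurableSet {x | x ∈ B ∧ (u x, v x) ∈ T} volume := by
  have h1 : AEMeasurable (fun x => (u x, v x)) (volume.restrict B) :=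
    h.aesm_u.aemeasurable.prodMk h.aesm_v.aemeasurable
  have h2 := h1.nullMeasurableSet_preimage hT
  rw [nullMeasurableSet_restrict h.wt.isOpen.measurableSet.nullMeasurableSet] at h2
  have h3 : {x | x ∈ B ∧ (u x, v x) ∈ T} = (fun x => (u x, v x)) ⁻¹' T ∩ B := by
    ext x; exact and_comm
  rw [h3]; exact h2

/-- the two integrability facts and bounds -/
theorem two_bounds {p α β : ℝ} {w : E 2 → ℝ} {B : Set (E 2)} {u v : E 2 → ℝ} {V a : E 2 → E 2}
    (h : Pair p α β w B u v V a) {K : ℝ × ℝ → ℝ} (hK : Continuous K) (hcK : HasCompactSupport K)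
    (h0 : ∀ y, 0 ≤ K y) {C : ℝ}
    (hC : ∫ x in B, K (u x, v x) * (w x * ‖V x‖ ^ p) ≤ C) :
    (IntegrableOn (fun x => K (u x, v x) ^ (1 / p) * ‖V x‖) B ∧
      ∫ x in B, K (u x, v x) ^ (1 / p) * ‖V x‖ ≤ C ^ (1 / p) *
      (∫ x in B, w x ^ (-(1 / (p - 1)))) ^ (1 / (p / (p - 1)))) ∧
    (IntegrableOn (fun x => K (u x, v x) ^ (1 / (p / (p - 1))) * ‖a x‖) B ∧
      ∫ x in B, K (u x, v x) ^ (1 / (p / (p - 1))) * ‖a x‖ ≤
      (β ^ (p / (p - 1)) * C) ^ (1 / (p / (p - 1))) * (∫ x in B, w x) ^ (1 / p)) := by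
  have hp := h.wt.hp
  have hp0 : (0 : ℝ) < p := by linarith
  have hp1 : (0 : ℝ) < p - 1 := by linarith
  have hq0 : (0 : ℝ) < p / (p - 1) := by positivity
  obtain ⟨M, hM⟩ : ∃ M : ℝ, ∀ y, K y ≤ M := by
    obtain ⟨M, hM⟩ := hcK.exists_bound_of_continuous hK
    exact ⟨M, fun y => (le_abs_self _).trans (hM y)⟩
  have hKm : AEStronglyMeasurable (fun x => K (u x, v x)) (volume.restrict B) :=
    hK.comp_aestronglyMeasurable (h.aesm_u.prodMk h.aesm_v)
  have hbd : ∀ᵐ x ∂(volume.restrict B), ‖K (u x, v x)‖ ≤ M :=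
    Eventually.of_forall fun x => by rw [Real.norm_of_nonneg (h0 _)]; exact hM _
  have hE := h.int_energy
  have hint : IntegrableOn (fun x => K (u x, v x) * (w x * ‖V x‖ ^ p)) B :=
    Integrable.bdd_mul hE hKm hbd
  constructor
  · obtain ⟨h1, h2⟩ := h.wt.holder (V := V) (K := fun x => K (u x, v x)) (fun x => h0 _) hint
    refine ⟨h1, h2.trans ?_⟩
    have hn : 0 ≤ ∫ x in B, w x ^ (-(1 / (p - 1))) := by
      refine integral_nonneg_of_ae ?_
      filter_upwards [h.wt.pos] with x hx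
      positivity
    have hn2 : 0 ≤ ∫ x in B, K (u x, v x) * (w x * ‖V x‖ ^ p) := by
      refine integral_nonneg_of_ae ?_
      filter_upwards [h.wt.pos] with x hx
      have := h0 (u x, v x)
      positivity
    gcongr
  · have hd : IntegrableOn (fun x => w x ^ (-(1 / (p - 1))) * ‖a x‖ ^ (p / (p - 1))) B := by
      refine Integrable.mono' (hE.const_mul (β ^ (p / (p - 1)))) ?_ ?_
      · exact h.wt.dual.aestronglyMeasurable.mul
          (h.aesm_a.norm.aemeasurable.pow_const _).aestronglyMeasurable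
      · filter_upwards [h.wt.pos, h.dual_bound] with x hx hb
        rw [Real.norm_of_nonneg (by positivity)]
        exact hb
    have hintd : IntegrableOn (fun x => K (u x, v x) *
        (w x ^ (-(1 / (p - 1))) * ‖a x‖ ^ (p / (p - 1)))) B := Integrable.bdd_mul hd hKm hbd
    obtain ⟨h1, h2⟩ := h.wt.dualWt.holder (V := a) (K := fun x => K (u x, v x))
      (fun x => h0 _) hintd
    rw [dual_exp hp] at h2
    have hww : ∫ x in B, (w x ^ (-(1 / (p - 1)))) ^ (-(1 / (p / (p - 1) - 1))) = ∫ x in B, w x :=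
      integral_congr_ae h.wt.dual_dual
    rw [hww] at h2
    refine ⟨h1, h2.trans ?_⟩
    have hn : 0 ≤ ∫ x in B, w x := by
      refine integral_nonneg_of_ae ?_
      filter_upwards [h.wt.pos] with x hx
      exact hx.le
    have hn2 : 0 ≤ ∫ x in B, K (u x, v x) * (w x ^ (-(1 / (p - 1))) * ‖a x‖ ^ (p / (p - 1))) := by
      refine integral_nonneg_of_ae ?_
      filter_upwards [h.wt.pos] with x hx
      have := h0 (u x, v x)
      positivity
    have hle : ∫ x in B, K (u x, v x) * (w x ^ (-(1 / (p - 1))) * ‖a x‖ ^ (p / (p - 1))) ≤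
        β ^ (p / (p - 1)) * C := by
      calc ∫ x in B, K (u x, v x) * (w x ^ (-(1 / (p - 1))) * ‖a x‖ ^ (p / (p - 1)))
          ≤ ∫ x in B, β ^ (p / (p - 1)) * (K (u x, v x) * (w x * ‖V x‖ ^ p)) := by
            refine integral_mono_ae hintd (hint.const_mul _) ?_
            filter_upwards [h.dual_bound] with x hb
            have := mul_le_mul_of_nonneg_left hb (h0 (u x, v x))
            calc _ ≤ _ := this
              _ = _ := by ring
        _ = β ^ (p / (p - 1)) * ∫ x in B, K (u x, v x) * (w x * ‖V x‖ ^ p) :=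
            integral_const_mul _ _
        _ ≤ _ := mul_le_mul_of_nonneg_left hC (Real.rpow_nonneg h.hβ.le _)
    gcongr

theorem int_V {p α β : ℝ} {w : E 2 → ℝ} {B : Set (E 2)} {u v : E 2 → ℝ} {V a : E 2 → E 2}
    (h : Pair p α β w B u v V a) : IntegrableOn V B := by
  have h1 := (h.wt.holder (V := V) (K := fun _ => 1) (fun _ => zero_le_one)
    (h.int_energy.congr (Eventually.of_forall fun x => by simp))).1
  refine Integrable.mono h1 h.aesm_V (Eventually.of_forall fun x => ?_)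
  simp

/-- comparison on one layer -/
theorem layer_le {c₁ s E₁ e : ℝ} {j : ℕ} (hj : 1 ≤ j) (he : 0 < e) (hs : s = E₁⁻¹ / j)
    (hE : 0 < E₁) (hc₁ : 0 < c₁) {G K : E 2 → ℝ} {S : Set (E 2)} (hSm : NullMeasurableSet S volume)
    (hG0 : ∀ x, 0 ≤ G x) (hK0 : ∀ x, 0 ≤ K x) (hK : ∀ x ∈ S, c₁ * E₁ ^ e ≤ K x)
    (hG : IntegrableOn G S) (hf : IntegrableOn (fun x => K x ^ (1 / e) * G x) S) :
    s⁻¹ * ∫ x in S, G x ≤ j * (c₁⁻¹ ^ (1 / e) * ∫ x in S, K x ^ (1 / e) * G x) := by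
  have hj0 : (0 : ℝ) < j := by exact_mod_cast hj
  have hs' : s⁻¹ = j * E₁ := by
    rw [hs, inv_div, div_inv_eq_mul]
  rw [hs', mul_assoc]
  refine mul_le_mul_of_nonneg_left ?_ hj0.le
  rw [← integral_const_mul, ← integral_const_mul]
  refine setIntegral_mono_on_ae₀ (hG.const_mul _) (hf.const_mul _) hSm
    (Eventually.of_forall fun x hx => ?_)
  have h1 : E₁ ^ e ≤ c₁⁻¹ * K x := by
    rw [inv_mul_eq_div, le_div_iff₀ hc₁, mul_comm]; exact hK x hx
  have h2 : E₁ ≤ c₁⁻¹ ^ (1 / e) * K x ^ (1 / e) := by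
    rw [← Real.mul_rpow (by positivity) (hK0 x)]
    calc E₁ = (E₁ ^ e) ^ (1 / e) := by
          rw [← Real.rpow_mul hE.le, mul_one_div_cancel he.ne', Real.rpow_one]
      _ ≤ _ := Real.rpow_le_rpow (by positivity) h1 (by positivity)
  calc E₁ * G x ≤ (c₁⁻¹ ^ (1 / e) * K x ^ (1 / e)) * G x :=
        mul_le_mul_of_nonneg_right h2 (hG0 x)
    _ = _ := by ring

theorem luc (hmest : MestStatement) (htarg : TargStatement) (hlayer : LayerStatement) :
    LucStatement := by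
  intro p α β w z r r' u v V a hP hr' hrr h0
  have hp := hP.wt.hp
  have hp0 : (0 : ℝ) < p := by linarith
  have hp1 : (0 : ℝ) < p - 1 := by linarith
  have hq0 : (0 : ℝ) < p / (p - 1) := by positivity
  set B := ball z r' with hB
  have hP' : Pair p α β w B u v V a := hP.mono isOpen_ball (ball_subset_ball hrr.le)
  by_contra hne
  have hfin : volume B ≠ ⊤ := measure_ball_lt_top.ne
  obtain ⟨ε, hε, hmε⟩ : ∃ ε > 0, 0 < volume.real {x | x ∈ B ∧ ε ≤ |u x|} := by
    by_contra hcon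
    push Not at hcon
    apply hne
    have hnull : ∀ n : ℕ, volume {x | x ∈ B ∧ 1 / ((n : ℝ) + 1) ≤ |u x|} = 0 := by
      intro n
      have h1 := hcon (1 / ((n : ℝ) + 1)) (by positivity)
      have h2 := le_antisymm h1 measureReal_nonneg
      exact (measureReal_eq_zero_iff
        ((measure_mono fun x hx => hx.1).trans_lt measure_ball_lt_top).ne).1 h2
    rw [ae_restrict_iff' measurableSet_ball, ae_iff]
    refine measure_mono_null ?_ (measure_iUnion_null hnull)
    intro x hx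
    obtain ⟨hxB, hux⟩ := Classical.not_imp.1 hx
    obtain ⟨n, hn⟩ := exists_nat_one_div_lt (abs_pos.2 hux)
    exact mem_iUnion.2 ⟨n, hxB, hn.le⟩
  set m := min (volume.real {x | x ∈ B ∧ u x = 0 ∧ v x = 0})
    (volume.real {x | x ∈ B ∧ ε ≤ |u x|}) with hm
  obtain ⟨c, hc, hlay⟩ := hlayer p α β w z r' u v V a ε m hP' hr' hε (lt_min h0 hmε)
    (min_le_left _ _) (min_le_right _ _)
  obtain ⟨C₁, c₁, hC₁, hc₁, j₀, hj₀, htar⟩ := htarg p hp
  obtain ⟨C, hC⟩ := hmest p α β w z r r' u v V a C₁ hP hr' hrr hC₁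
  set q := p / (p - 1) with hq
  set M₁ := C ^ (1 / p) * (∫ x in B, w x ^ (-(1 / (p - 1)))) ^ (1 / q) with hM₁
  set M₂ := (β ^ q * C) ^ (1 / q) * (∫ x in B, w x) ^ (1 / p) with hM₂
  set M := c₁⁻¹ ^ (1 / p) * M₁ + c₁⁻¹ ^ (1 / q) * M₂ with hM
  obtain ⟨j₁, hj₁⟩ : ∃ j₁ : ℕ, ∀ j, j₁ ≤ j → 2 * sc p j ≤ ε := by
    have h1 : Tendsto (fun j : ℕ => 2 * sc p j) atTop (𝓝 0) := by
      simpa using (tendsto_sc hp).const_mul 2
    exact eventually_atTop.1 (h1.eventually_le_const hε)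
  set j₂ := max j₀ j₁ with hj₂
  have key : ∀ N : ℕ, ∑ j ∈ Finset.Ico j₂ (N + 1), c / j ≤ M := by
    intro N
    obtain ⟨b, b', K, hT, hK⟩ := htar N
    have hCN := hC b b' K hT
    obtain ⟨⟨hfi, hfb⟩, hgi, hgb⟩ := two_bounds hP' hT.smK hT.csK hT.nonneg hCN
    set f : E 2 → ℝ := fun x => K (u x, v x) ^ (1 / p) * ‖V x‖ with hf
    set g : E 2 → ℝ := fun x => K (u x, v x) ^ (1 / q) * ‖a x‖ with hg
    have hf0 : ∀ x, 0 ≤ f x := fun x =>
      mul_nonneg (Real.rpow_nonneg (hT.nonneg _) _) (norm_nonneg _)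
    have hg0 : ∀ x, 0 ≤ g x := fun x =>
      mul_nonneg (Real.rpow_nonneg (hT.nonneg _) _) (norm_nonneg _)
    set S : ℕ → Set (E 2) := fun j => {x | x ∈ B ∧ sc p j ≤ |u x| ∧ |u x| ≤ 2 * sc p j ∧
      |v x| ≤ 2 * tc p j} with hS
    set T : ℕ → Set (E 2) := fun j => {x | x ∈ B ∧ |u x| ≤ 2 * sc p j ∧ tc p j ≤ |v x| ∧
      |v x| ≤ 2 * tc p j} with hTT
    have hSn : ∀ j, NullMeasurableSet (S j) volume := fun j =>
      nullM (T := {y : ℝ × ℝ | sc p j ≤ |y.1| ∧ |y.1| ≤ 2 * sc p j ∧ |y.2| ≤ 2 * tc p j}) hP' (by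
        measurability)
    have hTn : ∀ j, NullMeasurableSet (T j) volume := fun j =>
      nullM (T := {y : ℝ × ℝ | |y.1| ≤ 2 * sc p j ∧ tc p j ≤ |y.2| ∧ |y.2| ≤ 2 * tc p j}) hP' (by
        measurability)
    have hlayer1 : ∀ j ∈ Finset.Ico j₂ (N + 1), c / j ≤
        c₁⁻¹ ^ (1 / p) * (∫ x in S j, f x) + c₁⁻¹ ^ (1 / q) * (∫ x in T j, g x) := by
      intro j hj
      rw [Finset.mem_Ico] at hj
      have hj0 : j₀ ≤ j := (le_max_left _ _).trans hj.1
      have hj1 : 1 ≤ j := hj₀.trans hj0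
      have hjr : (0 : ℝ) < j := by exact_mod_cast hj1
      have hl := hlay j hj1 (hj₁ j ((le_max_right _ _).trans hj.1))
      have hSsub : S j ⊆ B := fun x hx => hx.1
      have hTsub : T j ⊆ B := fun x hx => hx.1
      have hVS : IntegrableOn (fun x => ‖V x‖) (S j) := IntegrableOn.mono_set (int_V hP').norm hSsub
      have haT : IntegrableOn (fun x => ‖a x‖) (T j) := IntegrableOn.mono_set hP'.int_a.norm hTsub
      have h1 : (sc p j)⁻¹ * ∫ x in S j, ‖V x‖ ≤
          j * (c₁⁻¹ ^ (1 / p) * ∫ x in S j, f x) := by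
        refine layer_le (E₁ := Real.exp (q * j)) (e := p) hj1 hp0 ?_ (Real.exp_pos _) hc₁ (hSn j)
          (fun x => norm_nonneg _) (fun x => hT.nonneg _) (fun x hx => ?_) hVS
          (hfi.mono_set hSsub)
        · rw [← Real.exp_neg]; unfold sc; rw [hq]; congr 2; ring
        · have := hK j hj0 (Nat.lt_succ_iff.1 hj.2) (u x) (v x) hx.2.2.1 hx.2.2.2 (Or.inl hx.2.1)
          rw [← Real.exp_mul]
          calc c₁ * Real.exp (q * j * p) = c₁ * Real.exp (p * (p / (p - 1)) * j) := by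
                congr 2; rw [hq]; ring
            _ ≤ _ := this
      have h2 : (tc p j)⁻¹ * ∫ x in T j, ‖a x‖ ≤
          j * (c₁⁻¹ ^ (1 / q) * ∫ x in T j, g x) := by
        refine layer_le (E₁ := Real.exp (p * j)) (e := q) hj1 hq0 ?_ (Real.exp_pos _) hc₁ (hTn j)
          (fun x => norm_nonneg _) (fun x => hT.nonneg _) (fun x hx => ?_) haT
          (hgi.mono_set hTsub)
        · rw [← Real.exp_neg]; unfold tc; congr 2; ring
        · have := hK j hj0 (Nat.lt_succ_iff.1 hj.2) (u x) (v x) hx.2.1 hx.2.2.2 (Or.inr hx.2.2.1)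
          rw [← Real.exp_mul]
          calc c₁ * Real.exp (p * j * q) = c₁ * Real.exp (p * (p / (p - 1)) * j) := by
                congr 2; rw [hq]; ring
            _ ≤ _ := this
      rw [div_le_iff₀ hjr]
      calc c ≤ _ := hl
        _ ≤ j * (c₁⁻¹ ^ (1 / p) * (∫ x in S j, f x)) + j * (c₁⁻¹ ^ (1 / q) * (∫ x in T j, g x)) :=
            add_le_add h1 h2
        _ = _ := by ring
    have hdS : ∀ i ∈ Finset.Ico j₂ (N + 1), ∀ j ∈ Finset.Ico j₂ (N + 1), i ≠ j →
        Disjoint (S i) (S j) := by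
      intro i hi j hj hij
      rw [Finset.mem_Ico] at hi hj
      have hi1 : 1 ≤ i := hj₀.trans ((le_max_left _ _).trans hi.1)
      have hj1 : 1 ≤ j := hj₀.trans ((le_max_left _ _).trans hj.1)
      rw [Set.disjoint_left]
      intro x hx hx'
      rcases lt_or_gt_of_ne hij with h | h
      · exact annuli_disjoint (fun j hj => sc_pos hj) (fun j hj => two_sc_lt hp hj) hi1 h
          hx.2.1 hx'.2.2.1
      · exact annuli_disjoint (fun j hj => sc_pos hj) (fun j hj => two_sc_lt hp hj) hj1 h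
          hx'.2.1 hx.2.2.1
    have hdT : ∀ i ∈ Finset.Ico j₂ (N + 1), ∀ j ∈ Finset.Ico j₂ (N + 1), i ≠ j →
        Disjoint (T i) (T j) := by
      intro i hi j hj hij
      rw [Finset.mem_Ico] at hi hj
      have hi1 : 1 ≤ i := hj₀.trans ((le_max_left _ _).trans hi.1)
      have hj1 : 1 ≤ j := hj₀.trans ((le_max_left _ _).trans hj.1)
      rw [Set.disjoint_left]
      intro x hx hx'
      rcases lt_or_gt_of_ne hij with h | h
      · exact annuli_disjoint (fun j hj => tc_pos hj) (fun j hj => two_tc_lt hp hj) hi1 h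
          hx.2.2.1 hx'.2.2.2
      · exact annuli_disjoint (fun j hj => tc_pos hj) (fun j hj => two_tc_lt hp hj) hj1 h
          hx'.2.2.1 hx.2.2.2
    have hsumS := sum_le hfi hf0 S hSn (fun j x hx => hx.1) (Finset.Ico j₂ (N + 1)) hdS
    have hsumT := sum_le hgi hg0 T hTn (fun j x hx => hx.1) (Finset.Ico j₂ (N + 1)) hdT
    calc ∑ j ∈ Finset.Ico j₂ (N + 1), c / j
        ≤ ∑ j ∈ Finset.Ico j₂ (N + 1),
          (c₁⁻¹ ^ (1 / p) * (∫ x in S j, f x) + c₁⁻¹ ^ (1 / q) * (∫ x in T j, g x)) :=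
          Finset.sum_le_sum hlayer1
      _ = c₁⁻¹ ^ (1 / p) * (∑ j ∈ Finset.Ico j₂ (N + 1), ∫ x in S j, f x) +
          c₁⁻¹ ^ (1 / q) * (∑ j ∈ Finset.Ico j₂ (N + 1), ∫ x in T j, g x) := by
          rw [Finset.sum_add_distrib, Finset.mul_sum, Finset.mul_sum]
      _ ≤ c₁⁻¹ ^ (1 / p) * M₁ + c₁⁻¹ ^ (1 / q) * M₂ := by
          have h3 : (0 : ℝ) ≤ c₁⁻¹ ^ (1 / p) := by positivity
          have h4 : (0 : ℝ) ≤ c₁⁻¹ ^ (1 / q) := by positivity
          exact add_le_add (mul_le_mul_of_nonneg_left (hsumS.trans hfb) h3)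
            (mul_le_mul_of_nonneg_left (hsumT.trans hgb) h4)
  have hdiv : Tendsto (fun N : ℕ => c * ∑ i ∈ Finset.range N, (1 / ((i : ℝ) + 1))) atTop atTop :=
    Real.tendsto_sum_range_one_div_nat_succ_atTop.const_mul_atTop hc
  obtain ⟨N, hN1, hN2⟩ := ((hdiv.eventually_gt_atTop
    (M + ∑ j ∈ Finset.range j₂, c / (j : ℝ))).and (eventually_ge_atTop j₂)).exists
  have h5 := key N
  rw [Finset.sum_Ico_eq_sub _ (by omega : j₂ ≤ N + 1), Finset.sum_range_succ'] at h5
  have h6 : c * ∑ i ∈ Finset.range N, (1 / ((i : ℝ) + 1)) =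
      ∑ k ∈ Finset.range N, c / ((k + 1 : ℕ) : ℝ) := by
    rw [Finset.mul_sum]
    refine Finset.sum_congr rfl fun k _ => ?_
    push_cast; ring
  rw [h6] at hN1
  simp only [Nat.cast_zero, div_zero, add_zero] at h5
  linarith

end Pool.Agent.Lib.MP_abd978_an.PL.H94
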