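import Pool.Agent.Lib.MP_abd978_an.PL.Tool
import Pool.Agent.Lib.MP_abd978_an.PL.H19.Poin
import Pool.Agent.Lib.MP_abd978_an.PL.H98.Ncon

/-!
# Project PLANAR: module UCB (unique continuation for harmonic functions in the plane)
-/

set_option autoImplicit false

open MeasureTheory Metric Set Filter Topology ContDiff
open scoped Gradient RealInnerProductSpace ENNReal

namespace Pool.Agent.Lib.MP_abd978_an.PL.H94

theorem isSob_sub_const {n : ℕ} {μ : Measure (E n)} {p : ℝ} {D : Set (E n)} {u : E n → ℝ}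
    {v : E n → E n} (hfin : μ D ≠ ⊤) (h : IsSob μ p D u v) (c : ℝ) :
    IsSob μ p D (fun x => u x - c) v := by
  obtain ⟨h1, h2, φ, h3, h4, h5⟩ := h
  have : IsFiniteMeasure (μ.restrict D) := ⟨by
    rw [Measure.restrict_apply_univ]; exact hfin.lt_top⟩
  refine ⟨h1.sub (memLp_const c), h2, fun i x => φ i x - c,
    fun i => (h3 i).sub contDiffOn_const, ?_, ?_⟩
  · refine h4.congr fun i => ?_
    congr 1
    funext x
    ring
  · refine h5.congr fun i => ?_
    congr 1
    funext x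
    have : ∇ (fun y => φ i y - c) x = ∇ (φ i) x := by
      rw [grad_eq, grad_eq, fderiv_sub_const]
    rw [this]

theorem isSob_congr_grad {n : ℕ} {μ : Measure (E n)} {p : ℝ} {D : Set (E n)} {u : E n → ℝ}
    {v v' : E n → E n} (h : IsSob μ p D u v) (hv : v =ᵐ[μ.restrict D] v') :
    IsSob μ p D u v' := by
  obtain ⟨h1, h2, φ, h3, h4, h5⟩ := h
  refine ⟨h1, h2.ae_eq hv, φ, h3, h4, ?_⟩
  refine h5.congr fun i => eLpNorm_congr_ae ?_
  filter_upwards [hv] with x hx
  rw [hx]

/-- the gradient of a solution which is constant vanishes -/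
theorem grad_zero' (hcut : CutStatement) (hcacc : CaccStatement) {n : ℕ} {p : ℝ}
    {μ : Measure (E n)} {a : E n → E n → E n} {α β : ℝ} (hop : Op p μ a α β) {D : Set (E n)}
    (hD : IsOpen D) {u : E n → ℝ} {V : E n → E n} {c : ℝ} (hfin : μ D ≠ ⊤)
    (hs : IsSob μ p D u V) (he : Eqn μ a D V) (hc : ∀ x ∈ D, u x = c) :
    ∀ᵐ x ∂(μ.restrict D), V x = 0 := by
  classical
  have hp := hop.hp
  have h1 := isSob_sub_const hfin hs c
  have h2 : IsSob μ p D (fun _ => 0) V := H98.isSob_congr' h1 (by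
    filter_upwards [ae_restrict_mem hD.measurableSet] with x hx
    rw [hc x hx, sub_self])
  have hV : V =ᵐ[μ.restrict D] D.indicator V := by
    filter_upwards [ae_restrict_mem hD.measurableSet] with x hx
    rw [indicator_of_mem hx]
  have h3 := isSob_congr_grad h2 hV
  have h4 : MemLp (D.indicator V) (ENNReal.ofReal p) μ :=
    (memLp_indicator_iff_restrict hD.measurableSet).2 hs.2.1
  have h5 : Eqn μ a D (D.indicator V) := by
    intro φ hφ
    rw [← he φ hφ]
    refine integral_congr_ae (Eventually.of_forall fun x => ?_)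
    by_cases hx : x ∈ D
    · simp only [indicator_of_mem hx]
    · have : ∇ φ x = 0 := grad_eq_zero_of_notMem (fun h => hx (hφ.2.2 h))
      simp only [this, inner_zero_right]
  have hB : BSol μ p a D (fun _ => 0) (D.indicator V) 0 1 :=
    ⟨hD, h3, fun _ => ⟨le_rfl, zero_le_one⟩, h5⟩
  have h6 := H98.grad_zero hcut hcacc hop hB h4 (c := 0) (Eventually.of_forall fun _ => rfl)
  filter_upwards [hV, h6] with x h7 h8
  rw [h7, h8]

/-- a Sobolev function with vanishing gradient on a ball is constant -/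
theorem ball_const {n : ℕ} {z : E n} {r : ℝ} (hr : 0 < r) {g : E n → ℝ} {G : E n → E n}
    (hg : IsSob volume 1 (ball z r) g G) (hG : ∀ᵐ x ∂(volume.restrict (ball z r)), G x = 0) :
    ∃ k : ℝ, ∀ᵐ x ∂(volume.restrict (ball z r)), g x = k := by
  obtain ⟨g', hg', hgg⟩ := hg.1.aestronglyMeasurable
  have h1 : IsSob volume 1 (ball z r) g' G := H98.isSob_congr' hg hgg
  have h2 := H19.sob_le h1
  have h3 : ∫⁻ x in ball z r, ‖G x‖ₑ = 0 := by
    rw [lintegral_congr_ae (g := fun _ => 0) (by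
      filter_upwards [hG] with x hx
      rw [hx, enorm_zero])]
    simp
  rw [h3, mul_zero, nonpos_iff_eq_zero] at h2
  have hm : Measurable fun q : E n × E n => ‖g' q.1 - g' q.2‖ₑ :=
    ((hg'.measurable.comp measurable_fst).sub (hg'.measurable.comp measurable_snd)).enorm
  have hm2 : Measurable fun x => ∫⁻ y in ball z r, ‖g' x - g' y‖ₑ := hm.lintegral_prod_right'
  have h4 := (lintegral_eq_zero_iff hm2).1 h2
  have hne : (ae (volume.restrict (ball z r))).NeBot := by
    rw [ae_neBot, Ne, Measure.restrict_eq_zero]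
    exact (measure_ball_pos _ _ hr).ne'
  obtain ⟨x₁, hx₁⟩ := h4.exists
  have h5 := (lintegral_eq_zero_iff (hm.comp (measurable_prodMk_left (x := x₁)))).1 hx₁
  refine ⟨g' x₁, ?_⟩
  filter_upwards [h5, hgg] with y hy1 hy2
  have : ‖g' x₁ - g' y‖ₑ = 0 := hy1
  rw [enorm_eq_zero, sub_eq_zero] at this
  rw [hy2, this]

/-- the flux is integrable -/
theorem flux_int {p : ℝ} {w : E 2 → ℝ} {D : Set (E 2)} (hw : Wt p w D) {a : E 2 → E 2 → E 2}
    {α β : ℝ} (hop : Op p (wm w) a α β) {V : E 2 → E 2}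
    (hV : MemLp V (ENNReal.ofReal p) ((wm w).restrict D)) :
    IntegrableOn (fun x => w x • a x (V x)) D := by
  have hp := hop.hp
  have hβ : 0 < β := hop.hα.trans_le hop.hαβ
  have hVm : AEStronglyMeasurable V (volume.restrict D) := hw.aesm hV.aestronglyMeasurable
  have ham : AEStronglyMeasurable (fun x => a x (V x)) (volume.restrict D) :=
    (hop.meas.comp_aemeasurable
      (aemeasurable_id.prodMk hVm.aemeasurable)).aestronglyMeasurable
  have hwm : AEStronglyMeasurable w (volume.restrict D) := hw.int.aestronglyMeasurable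
  have h1 : IntegrableOn (fun x => β * (w x + w x * ‖V x‖ ^ p)) D :=
    (hw.int.add (hw.integrable hV)).const_mul β
  refine Integrable.mono' h1 (hwm.smul ham) ?_
  filter_upwards [hw.pos] with x hx
  rw [norm_smul, Real.norm_of_nonneg hx.le]
  have h2 := hop.bdd x (V x)
  have h3 : ‖V x‖ ^ (p - 1) ≤ 1 + ‖V x‖ ^ p := by
    rcases le_total ‖V x‖ 1 with h | h
    · have h4 : ‖V x‖ ^ (p - 1) ≤ 1 := Real.rpow_le_one (norm_nonneg _) h (by linarith)
      have h5 : 0 ≤ ‖V x‖ ^ p := by positivity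
      linarith
    · have h4 : ‖V x‖ ^ (p - 1) ≤ ‖V x‖ ^ p := Real.rpow_le_rpow_of_exponent_le h (by linarith)
      linarith
  calc w x * ‖a x (V x)‖ ≤ w x * (β * ‖V x‖ ^ (p - 1)) := mul_le_mul_of_nonneg_left h2 hx.le
    _ ≤ w x * (β * (1 + ‖V x‖ ^ p)) :=
        mul_le_mul_of_nonneg_left (mul_le_mul_of_nonneg_left h3 hβ.le) hx.le
    _ = β * (w x + w x * ‖V x‖ ^ p) := by ring

/-- the flux is divergence free -/
theorem flux_div {w : E 2 → ℝ} (hw : LocallyIntegrable w) (hpos : ∀ᵐ x : E 2, 0 < w x)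
    {a : E 2 → E 2 → E 2} {D : Set (E 2)} {V : E 2 → E 2} (he : Eqn (wm w) a D V) :
    ∀ φ, Test D φ → ∫ x, ⟪w x • a x (V x), ∇ φ x⟫ = 0 := by
  intro φ hφ
  rw [← he φ hφ, wm, integral_withDensity_eq_integral_toReal_smul₀
    hw.aestronglyMeasurable.aemeasurable.ennreal_ofReal
    (Eventually.of_forall fun x => ENNReal.ofReal_lt_top)]
  refine integral_congr_ae ?_
  filter_upwards [hpos] with x hx
  rw [ENNReal.toReal_ofReal hx.le, smul_eq_mul, real_inner_smul_left]

/-- unique continuation near a point -/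
theorem local_uc (hst : StreamStatement) (hluc : LucStatement) (hcut : CutStatement)
    (hcacc : CaccStatement) {p : ℝ} {w : E 2 → ℝ} {a : E 2 → E 2 → E 2} {α β : ℝ}
    {U : Set (E 2)} {u : E 2 → ℝ} (hw : LocallyIntegrable w) (hpos : ∀ᵐ x : E 2, 0 < w x)
    (hop : Op p (wm w) a α β) (hU : IsOpen U)
    (hσ : LocallyIntegrableOn (fun x => w x ^ (-(1 / (p - 1)))) U) (hu : Harm (wm w) p a U u)
    {x₁ : E 2} (hx₁ : x₁ ∈ U) (c : ℝ) :
    ∃ R > 0, (∃ y ∈ ball x₁ R, ∀ᶠ x in 𝓝 y, u x = c) → ∀ x ∈ ball x₁ R, u x = c := by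
  have hp := hop.hp
  have hlf := hop.lf
  have hβ : 0 < β := hop.hα.trans_le hop.hαβ
  obtain ⟨hcont, V, hloc, heqn⟩ := hu
  obtain ⟨t, ht, htσ⟩ := hσ x₁ hx₁
  rw [hU.nhdsWithin_eq hx₁] at ht
  obtain ⟨ρ, hρ, hρs⟩ := Metric.nhds_basis_closedBall.mem_iff.1
    (inter_mem ht (hU.mem_nhds hx₁))
  set B₃ := ball x₁ ρ with hB₃
  set B₂ := ball x₁ (ρ / 2) with hB₂
  have hB₃c : closure B₃ ⊆ closedBall x₁ ρ := closure_ball_subset_closedBall
  have hB₃t : B₃ ⊆ t := ball_subset_closedBall.trans fun x hx => (hρs hx).1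
  have hB₃U : closure B₃ ⊆ U := hB₃c.trans fun x hx => (hρs hx).2
  have hB₂₃ : B₂ ⊆ B₃ := ball_subset_ball (by linarith)
  have hwt : Wt p w B₃ := ⟨hp, isOpen_ball, isBounded_ball, ae_restrict_of_ae hpos,
    (hw.integrableOn_isCompact (isCompact_closedBall x₁ ρ)).mono_set ball_subset_closedBall,
    htσ.mono_set hB₃t⟩
  have hs₃ : IsSob (wm w) p B₃ u V := hloc B₃ isOpen_ball
    (isBounded_ball.isCompact_closure) hB₃U
  have hfin : ∀ (y : E 2) (r : ℝ), wm w (ball y r) ≠ ⊤ := fun y r =>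
    measure_ball_lt_top.ne
  obtain ⟨v, hv⟩ := hst x₁ ρ (ρ / 2) (fun x => w x • a x (V x)) (by positivity) (by linarith)
    (flux_int hwt hop hs₃.2.1)
    (flux_div hw hpos (heqn.mono (subset_closure.trans hB₃U)))
  refine ⟨ρ / 4, by positivity, ?_⟩
  rintro ⟨y, hy, hyc⟩
  -- a small ball where `u = c`
  obtain ⟨δ, hδ, hδs⟩ := Metric.eventually_nhds_iff_ball.1
    (hyc.and (isOpen_ball.mem_nhds hy))
  have hδ1 : ball y δ ⊆ ball x₁ (ρ / 4) := fun x hx => (hδs x hx).2
  have hδ2 : ball y δ ⊆ B₂ := hδ1.trans (ball_subset_ball (by linarith))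
  have hδ3 : ball y δ ⊆ B₃ := hδ2.trans hB₂₃
  have hV0 : ∀ᵐ x ∂((wm w).restrict (ball y δ)), V x = 0 :=
    grad_zero' hcut hcacc hop isOpen_ball (hfin _ _) (hs₃.mono hδ3)
      (heqn.mono (hδ3.trans (subset_closure.trans hB₃U))) fun x hx => (hδs x hx).1
  have hV0' : ∀ᵐ x ∂(volume.restrict (ball y δ)), V x = 0 :=
    (hwt.mono isOpen_ball hδ3).ac.ae_le hV0
  have ha0 : ∀ x, a x 0 = 0 := by
    intro x
    have h1 := hop.bdd x 0
    rw [norm_zero, Real.zero_rpow (by linarith), mul_zero] at h1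
    exact norm_le_zero_iff.1 h1
  have hr0 : ∀ᵐ x ∂(volume.restrict (ball y δ)), rot (w x • a x (V x)) = 0 := by
    filter_upwards [hV0'] with x hx
    rw [hx, ha0, smul_zero, rot_zero]
  obtain ⟨k, hk⟩ := ball_const hδ (hv.mono hδ2) hr0
  -- the pair
  have hpair : Pair p α β w B₂ (fun x => u x - c) (fun x => v x - k) V
      fun x => w x • a x (V x) := by
    refine ⟨hwt.mono isOpen_ball hB₂₃, hop.hα, hβ,
      isSob_sub_const (hfin _ _) (hs₃.mono hB₂₃) c,
      isSob_sub_const measure_ball_lt_top.ne hv k, ?_, ?_⟩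
    · filter_upwards [ae_restrict_of_ae hpos] with x hx
      rw [real_inner_smul_left]
      have := hop.ell x (V x)
      nlinarith
    · filter_upwards [ae_restrict_of_ae hpos] with x hx
      rw [norm_smul, Real.norm_of_nonneg hx.le]
      have := hop.bdd x (V x)
      nlinarith
  have hpos' : 0 < volume.real {x | x ∈ ball x₁ (ρ / 4) ∧ u x - c = 0 ∧ v x - k = 0} := by
    have h1 : ball y δ ≤ᵐ[volume] {x | x ∈ ball x₁ (ρ / 4) ∧ u x - c = 0 ∧ v x - k = 0} := by
      have h2 := (ae_restrict_iff' measurableSet_ball).1 hk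
      filter_upwards [h2] with x hx hxb
      exact ⟨hδ1 hxb, sub_eq_zero.2 (hδs x hxb).1, sub_eq_zero.2 (hx hxb)⟩
    have h3 : 0 < volume (ball y δ) := measure_ball_pos _ _ hδ
    refine ENNReal.toReal_pos (h3.trans_le (measure_mono_ae h1)).ne' ?_
    exact ((measure_mono fun x hx => hx.1).trans_lt
      (measure_ball_lt_top (x := x₁) (r := ρ / 4))).ne
  have hfinal := hluc p α β w x₁ (ρ / 2) (ρ / 4) (fun x => u x - c) (fun x => v x - k) V
    (fun x => w x • a x (V x)) hpair (by positivity) (by linarith) hpos'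
  -- continuity
  have hcB : ContinuousOn u (ball x₁ (ρ / 4)) := hcont.mono
    ((ball_subset_ball (by linarith)).trans (subset_closure.trans hB₃U))
  intro x hx
  by_contra hne
  have h1 : {z | z ∈ ball x₁ (ρ / 4) ∧ u z ≠ c} ∈ 𝓝 x := by
    have h2 : ContinuousAt u x := hcB.continuousAt (isOpen_ball.mem_nhds hx)
    exact inter_mem (isOpen_ball.mem_nhds hx) (h2.eventually_ne hne)
  have h2 : volume {z | z ∈ ball x₁ (ρ / 4) ∧ u z ≠ c} = 0 := by
    have h3 := (ae_restrict_iff' measurableSet_ball).1 hfinal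
    refine measure_mono_null ?_ (ae_iff.1 h3)
    rintro z ⟨hz1, hz2⟩
    simp only [mem_ofPred_eq, Classical.not_imp]
    exact ⟨hz1, fun h => hz2 (sub_eq_zero.1 h)⟩
  exact (MeasureTheory.Measure.measure_pos_of_mem_nhds volume h1).ne' h2

/-- module UCB -/
theorem ucb (hst : StreamStatement) (hluc : LucStatement) (hcut : CutStatement)
    (hcacc : CaccStatement) : UcbStatement := by
  intro p w a α β U u x₀ c hw hpos hop hU hUp hσ hu hx₀ hc
  set W : Set (E 2) := {x | ∀ᶠ y in 𝓝 x, u y = c} with hW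
  have hWo : IsOpen W := isOpen_setOfPred_eventually_nhds
  have hsub : U ⊆ W := by
    refine hUp.subset_of_closure_inter_subset hWo ⟨x₀, hx₀, hc⟩ ?_
    rintro x₁ ⟨hx1, hx1U⟩
    obtain ⟨R, hR, h⟩ := local_uc hst hluc hcut hcacc hw hpos hop hU hσ hu hx1U c
    obtain ⟨y, hyb, hyW⟩ := mem_closure_iff_nhds.1 hx1 (ball x₁ R) (ball_mem_nhds _ hR)
    have h1 := h ⟨y, hyb, hyW⟩
    show ∀ᶠ z in 𝓝 x₁, u z = c
    filter_upwards [ball_mem_nhds x₁ hR] with z hz
    exact h1 z hz
  intro x hx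
  exact (hsub hx).self_of_nhds

end Pool.Agent.Lib.MP_abd978_an.PL.H94
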